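import Pool.Agent.H61.CM4.TargetsB
import Pool.Agent.H41.HK.GI
import Pool.Agent.H41.HK.JA
import Pool.Agent.H41.HK.G1
import Pool.Agent.H87.HK.YC

/-!
# The Gamma integral (GI2)
-/

set_option autoImplicit false

open MeasureTheory Set Filter NumberField NumberField.InfinitePlace NumberField.Units
  NumberField.Units.dirichletUnitTheorem Pool.Agent.H65.CM4 Pool.Agent.H25.HK Pool.Agent.H61.CM4
open scoped Real

namespace Pool.Agent.H14.CM4B

/-- the integral in one variable -/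
theorem gi2_one (q : ℝ) (s : ℂ) (hq : 0 < q) (hs : 0 < s.re) :
    Integrable (fun y : ℝ => (Real.exp (-(2 * π) * (Real.exp y * q)) : ℂ) *
      Complex.exp (s * y)) ∧
    ∫ y : ℝ, (Real.exp (-(2 * π) * (Real.exp y * q)) : ℂ) * Complex.exp (s * y) =
      Complex.Gamma s * (2 * (π : ℂ)) ^ (-s) * ((q : ℝ) : ℂ) ^ (-s) := by
  obtain ⟨h1, h2⟩ := Pool.Agent.H41.HK.g1 2 (Real.sqrt q) s two_pos (Real.sqrt_pos.mpr hq) hs
  have hf : (fun y : ℝ => (Real.exp (-Real.pi * 2 * Real.exp y * (Real.sqrt q) ^ 2) : ℂ) *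
      Complex.exp (s * ((2 : ℝ) : ℂ) * y / 2)) = (fun y : ℝ =>
      (Real.exp (-(2 * π) * (Real.exp y * q)) : ℂ) * Complex.exp (s * y)) := by
    funext y
    rw [Real.sq_sqrt hq.le]
    have e1 : -Real.pi * 2 * Real.exp y * q = -(2 * π) * (Real.exp y * q) := by ring
    have e2 : s * ((2 : ℝ) : ℂ) * y / 2 = s * y := by
      push_cast
      ring
    rw [e1, e2]
  rw [hf] at h1 h2
  refine ⟨h1, ?_⟩
  rw [h2, Real.sq_sqrt hq.le]
  have e3 : ((2 : ℝ) : ℂ) * s / 2 = s := by
    push_cast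
    ring
  have hpi := Real.pi_pos
  rw [e3, Complex.ofReal_mul, Complex.mul_cpow_ofReal_nonneg (by positivity) hq.le]
  have e4 : ((Real.pi * 2 : ℝ) : ℂ) = 2 * (π : ℂ) := by
    push_cast
    ring
  rw [e4]
  ring

open scoped Classical in
theorem pf_GI2 : T_GI2 := by
  intro k _ _ _ q s hq hs
  obtain ⟨hy, -⟩ := Pool.Agent.H87.HK.yc_main k
  let f : Pl k → ℝ → ℂ := fun v y =>
    (Real.exp (-(2 * π) * (Real.exp y * q v)) : ℂ) * Complex.exp (s * y)
  let g : (InfinitePlace k → ℝ) → ℂ := fun y => ∏ v, f v (y v)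
  have hgi : Integrable g := by
    apply Integrable.fintype_prod
    intro v
    exact (gi2_one (q v) s (hq v) hs).1
  have hgv : ∫ y, g y = (Complex.Gamma s * (2 * (π : ℂ)) ^ (-s)) ^ dg k *
      ((∏ v, q v : ℝ) : ℂ) ^ (-s) := by
    have h4 : ∫ y, g y = ∏ v : InfinitePlace k, ∫ y, f v y :=
      integral_fintype_prod_volume_eq_prod f
    rw [h4]
    have h5 : ∀ v : InfinitePlace k, ∫ y, f v y =
        Complex.Gamma s * (2 * (π : ℂ)) ^ (-s) * ((q v : ℝ) : ℂ) ^ (-s) := by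
      intro v
      exact (gi2_one (q v) s (hq v) hs).2
    simp_rw [h5]
    rw [Finset.prod_mul_distrib]
    congr 1
    · rw [Finset.prod_const, Finset.card_univ]
      congr 1
      have h6 := card_add_two_mul_card_eq_rank k
      have h7 := IsTotallyReal.finrank (K := k)
      have h8 := card_eq_nrRealPlaces_add_nrComplexPlaces (K := k)
      rw [dg]
      omega
    · rw [← Pool.Agent.H41.HK.prod_cpow_of_pos Finset.univ q (fun v _ => (hq v).le)]
  have hfun : (fun p : ℝ × logSpace k => g (yc k p.1 p.2)) = (fun p : ℝ × logSpace k =>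
      (Real.exp (-(2 * π) * ∑ v, Real.exp (yc k p.1 p.2 v) * q v) : ℂ) *
        Complex.exp (2 * s * p.1)) := by
    funext p
    simp only [g, f]
    rw [Finset.prod_mul_distrib]
    congr 1
    · rw [← Complex.ofReal_prod, ← Real.exp_sum, Finset.mul_sum]
    · rw [← Complex.exp_sum]
      congr 1
      have h8 := hy p.1 p.2
      have h9 : ((∑ v, (v.mult : ℝ) * yc k p.1 p.2 v : ℝ) : ℂ) = ((2 * p.1 : ℝ) : ℂ) := by
        rw [h8]
      have h10 : (∑ v, (v.mult : ℝ) * yc k p.1 p.2 v) = ∑ v, yc k p.1 p.2 v := by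
        refine Finset.sum_congr rfl fun v _ => ?_
        rw [(IsTotallyReal.isReal v).mult_eq_one, Nat.cast_one, one_mul]
      rw [h10] at h9
      push_cast at h9
      rw [← Finset.mul_sum, h9]
      ring
  obtain ⟨h11, h12⟩ := Pool.Agent.H41.HK.ja k g hgi
  rw [hfun] at h11
  refine ⟨h11, ?_⟩
  have h13 : ∫ p : ℝ × logSpace k,
      (Real.exp (-(2 * π) * ∑ v, Real.exp (yc k p.1 p.2 v) * q v) : ℂ) *
        Complex.exp (2 * s * p.1) =
      ∫ p : ℝ × logSpace k, g (yc k p.1 p.2) := by rw [hfun]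
  have h14 : nrRealPlaces k = dg k := (IsTotallyReal.finrank (K := k)).symm
  rw [h13, h12, hgv, h14]
  ring

end Pool.Agent.H14.CM4B
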